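import Pool.Agent.Lib.MP_a271d0_an.W.Stp
import Pool.Agent.Lib.MP_a271d0_an.W.Cht

set_option autoImplicit false
open MeasureTheory Filter Topology

namespace Pool.Agent.Results.MP_a271d0_an.StrongAbsorption

/-- Smooth functions with compact support in `U`. -/
def Test {N : ℕ} (U : Set (EuclideanSpace ℝ (Fin N))) (ψ : EuclideanSpace ℝ (Fin N) → ℝ) : Prop :=
  ContDiff ℝ ((⊤ : ℕ∞) : WithTop ℕ∞) ψ ∧ HasCompactSupport ψ ∧ tsupport ψ ⊆ U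

/-- `u` lies in `H^1_0(U)` and has weak gradient `G`. -/
def InH10 {N : ℕ} (U : Set (EuclideanSpace ℝ (Fin N))) (u : EuclideanSpace ℝ (Fin N) → ℝ)
    (G : EuclideanSpace ℝ (Fin N) → EuclideanSpace ℝ (Fin N)) : Prop :=
  MemLp u 2 volume ∧ MemLp G 2 volume ∧
    ∃ φ : ℕ → EuclideanSpace ℝ (Fin N) → ℝ, (∀ n, Test U (φ n)) ∧
      Tendsto (fun n => eLpNorm (fun x => φ n x - u x) 2 volume) atTop (𝓝 0) ∧
      Tendsto (fun n => eLpNorm (fun x => gradient (φ n) x - G x) 2 volume) atTop (𝓝 0)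

/-- `u` is a weak solution in `H^1_0(U)` of the two-weight equation. -/
def WeakSol {N : ℕ} (U : Set (EuclideanSpace ℝ (Fin N))) (l s₁ r s₂ q : ℝ)
    (u : EuclideanSpace ℝ (Fin N) → ℝ) : Prop :=
  ∃ G : EuclideanSpace ℝ (Fin N) → EuclideanSpace ℝ (Fin N), InH10 U u G ∧ ∀ ψ, Test U ψ →
    ∫ x, (inner ℝ (G x) (gradient ψ x) + l * (|u x| ^ (r - 2) * u x * ψ x / ‖x‖ ^ s₁)
      - |u x| ^ (q - 2) * u x * ψ x / ‖x‖ ^ s₂) = 0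

/-- Two-weight family with `q = 2*(s₂) < r < 2*(s₁)` on a bounded set whose boundary is smooth near
the boundary point `0`; when `r < 2*(s₁) - 2/(N-2)` the second fundamental form at `0` is assumed
positive semidefinite, otherwise the curvature is free. On the dilate `RΩ` with absorption
coefficient `l` the only weak solution is zero as soon as `l R^(N - s₁ - r(N-2)/2)` is large. -/
theorem result :
    ∀ (N : ℕ), 3 ≤ N →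
  ∀ s₁ s₂ r : ℝ, 0 ≤ s₁ → s₁ < s₂ → s₂ < 2 →
    2 * ((N : ℝ) - s₂) / ((N : ℝ) - 2) < r → r < 2 * ((N : ℝ) - s₁) / ((N : ℝ) - 2) →
  ∀ (Ω : Set (EuclideanSpace ℝ (Fin N))) (ρ : EuclideanSpace ℝ (Fin N) → ℝ),
    Bornology.IsBounded Ω → ContDiff ℝ ((⊤ : ℕ∞) : WithTop ℕ∞) ρ → ρ 0 = 0 →
    fderiv ℝ ρ 0 ≠ 0 → (∀ᶠ x in 𝓝 (0 : EuclideanSpace ℝ (Fin N)), x ∈ Ω ↔ ρ x < 0) →
    (r < 2 * ((N : ℝ) - s₁) / ((N : ℝ) - 2) - 2 / ((N : ℝ) - 2) →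
      ∀ v, fderiv ℝ ρ 0 v = 0 → 0 ≤ fderiv ℝ (fderiv ℝ ρ) 0 v v) →
  ∃ C : ℝ, 0 < C ∧ ∀ l R : ℝ, 0 < R → C ≤ l * R ^ ((N : ℝ) - s₁ - r * (((N : ℝ) - 2) / 2)) →
  ∀ u : EuclideanSpace ℝ (Fin N) → ℝ,
    WeakSol ((fun x => R • x) '' Ω) l s₁ r s₂ (2 * ((N : ℝ) - s₂) / ((N : ℝ) - 2)) u →
    ∀ᵐ x ∂(volume : Measure (EuclideanSpace ℝ (Fin N))), u x = 0 := by
  intro N hN s₁ s₂ r h1 h2 h3 hq hr Ω ρ hb hρ h0 hd hΩ hc
  have hN' : (3:ℝ) ≤ N := by exact_mod_cast hN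
  have hfr : ((Module.finrank ℝ (EuclideanSpace ℝ (Fin N)) : ℕ) : ℝ) = N := by simp
  have hN2 : (0:ℝ) < N - 2 := by linarith
  have P : Pool.Agent.Lib.MP_a271d0_an.G.W.Par (Module.finrank ℝ (EuclideanSpace ℝ (Fin N)))
      s₁ s₂ r (2 * ((N : ℝ) - s₂) / ((N : ℝ) - 2)) (2 * N / (N - 2)) ((N - 2) / 2)
      (N - s₁ - r * ((N - 2) / 2)) := by
    rw [hfr]
    refine ⟨hN', h1, h2, h3, rfl, rfl, rfl, rfl, hq, ?_⟩
    rw [lt_div_iff₀ hN2] at hr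
    linarith
  obtain ⟨Λ, hΛ, e, he, H⟩ := Pool.Agent.Lib.MP_a271d0_an.G.W.exists_flow2 volume P.γ_pos.le
    P.γ_le hρ h0 hd hΩ ((le_or_gt _ r).imp (fun h => by
      rw [← sub_div, div_le_iff₀ hN2] at h
      linarith) hc)
  obtain ⟨c, hc0, K⟩ := Pool.Agent.Lib.MP_a271d0_an.G.W.nonexist volume P
  obtain ⟨b, hb⟩ := hb.exists_norm_le
  refine ⟨c * Λ ^ ((N : ℝ) - s₁ - r * (((N : ℝ) - 2) / 2)), by positivity,
    fun l R hR hl u ⟨G, ⟨hu, hG, φ, hφ, h4, h5⟩, heq⟩ => ?_⟩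
  obtain ⟨φ', S⟩ := Pool.Agent.Lib.MP_a271d0_an.G.exists_H10 hu hG hφ h4 h5
  obtain ⟨hx, Φ, Φ', F⟩ := H R hR
  refine K (Λ / R) l e _ Φ Φ' (R * b) u G φ' (by positivity) ?_ he hx F ?_ ⟨S, fun ψ hψ => ?_⟩
  · rw [Real.div_rpow hΛ.le hR.le, ← mul_div_assoc, div_le_iff₀ (by positivity)]
    exact hl
  · rintro x ⟨y, hy, rfl⟩
    rw [norm_smul, Real.norm_eq_abs, abs_of_pos hR]
    gcongr
    exact hb y hy
  · have := heq ψ hψ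
    simpa only [div_eq_mul_inv (_ * ψ _), ← Real.rpow_neg (norm_nonneg _)] using this

end Pool.Agent.Results.MP_a271d0_an.StrongAbsorption
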